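import Pool.Agent.Lib.H38E.E4

/-! # H63P, the final theorem: pairwise disjoint edges in simple drawings of `K_n` -/

open H53P SimpleDraw

namespace H63P

open H38E in
/-- A plane matching of the crossing table is a set of pairwise disjoint edges of the drawing. -/
theorem fin_disj {n : ℕ} (D : SimpleDrawing n) {M : Finset (Fin n × Fin n)} (h : TM (table D) M) :
    ∀ e ∈ M, ∀ f ∈ M, e ≠ f → Disjoint (D.curve e.1 e.2) (D.curve f.1 f.2) := by
  intro e he f hf hef
  rw [Set.disjoint_iff_inter_eq_empty, ← Set.not_nonempty_iff_eq_empty]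
  intro hne
  have h1 : X D e.1 e.2 f.1 f.2 = false := h.plane e he f hf
  obtain ⟨h2, h3, h4, h5⟩ := h.disj e he f hf hef
  unfold X at h1
  rw [decide_eq_false_iff_not] at h1
  exact h1 ⟨h.ne e he, h.ne f hf, h2, h3, h4, h5, hne⟩

open H38E in
/-- The bound with at least one edge. -/
theorem fin_drawing {n : ℕ} (hn : 3 ≤ n) (D : SimpleDrawing n) {β : ℕ} (hβ : n ≤ 2 ^ β) :
    ∃ S : Finset (Fin n × Fin n), (∀ e ∈ S, e.1 ≠ e.2) ∧
      (∀ e ∈ S, ∀ f ∈ S, e ≠ f → Disjoint (D.curve e.1 e.2) (D.curve f.1 f.2)) ∧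
      n ≤ (2 * Nc β + 2 * Kc β + 3) * S.card := by
  classical
  obtain ⟨M, hM, hb⟩ := table_main (table D) (β := β) (by rw [Fintype.card_fin]; exact hn)
    (by rw [Fintype.card_fin]; exact hβ)
  rw [Fintype.card_fin] at hb
  rcases M.eq_empty_or_nonempty with h0 | h0
  · refine ⟨{(⟨0, by omega⟩, ⟨1, by omega⟩)}, ?_, ?_, ?_⟩
    · intro e he
      rw [Finset.mem_singleton.1 he]
      intro h
      have := congrArg Fin.val h
      simp at this
    · intro e he f hf hef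
      exact absurd ((Finset.mem_singleton.1 he).trans (Finset.mem_singleton.1 hf).symm) hef
    · rw [Finset.card_singleton]
      rw [h0, Finset.card_empty] at hb
      omega
  · refine ⟨M, hM.ne, fin_disj D hM, ?_⟩
    have h1 : 1 ≤ M.card := Finset.card_pos.2 h0
    calc n ≤ 2 * (Nc β * M.card + Kc β) + 3 := hb
      _ ≤ (2 * Nc β + 2 * Kc β + 3) * M.card := by nlinarith

open H38E in
/-- Every simple drawing of `K_n` has at least `c n / (log n) ^ 11` pairwise disjoint edges. -/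
theorem disjoint_edges : ∃ c : ℝ, 0 < c ∧ ∀ n : ℕ, 3 ≤ n → ∀ D : SimpleDrawing n,
    ∃ S : Finset (Fin n × Fin n), (∀ e ∈ S, e.1 ≠ e.2) ∧
      (∀ e ∈ S, ∀ f ∈ S, e ≠ f → Disjoint (D.curve e.1 e.2) (D.curve f.1 f.2)) ∧
      c * n / (Real.log n) ^ 11 ≤ S.card := by
  obtain ⟨C, hC, hCb⟩ := poly_bound
  have hC' : (0 : ℝ) < C := by exact_mod_cast hC
  refine ⟨1 / (C * 3 ^ 11), by positivity, fun n hn D => ?_⟩
  obtain ⟨β, hβ⟩ : ∃ β, β = Nat.clog 2 n := ⟨_, rfl⟩
  have hn2 : n ≤ 2 ^ β := by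
    rw [hβ]
    exact Nat.le_pow_clog (by norm_num) n
  have hβ1 : 1 ≤ β := by
    rw [hβ]
    exact Nat.clog_pos (by norm_num) (by omega)
  obtain ⟨S, hS1, hS2, hS3⟩ := fin_drawing hn D hn2
  refine ⟨S, hS1, hS2, ?_⟩
  have hlog : 1 ≤ Real.log n := by
    rw [Real.le_log_iff_exp_le (by positivity)]
    have h1 := Real.exp_one_lt_d9
    have h2 : (3 : ℝ) ≤ n := by exact_mod_cast hn
    linarith
  have hβlog : (β : ℝ) ≤ 3 * Real.log n := by
    have h1 : 2 ^ (β - 1) < n := by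
      rw [hβ]
      exact Nat.pow_pred_clog_lt_self (by norm_num) (by omega)
    have h2 : ((2 : ℝ) ^ (β - 1)) < n := by exact_mod_cast h1
    have h3 : Real.log ((2 : ℝ) ^ (β - 1)) < Real.log n := Real.log_lt_log (by positivity) h2
    rw [Real.log_pow] at h3
    have h4 : ((β - 1 : ℕ) : ℝ) = (β : ℝ) - 1 := by
      rw [Nat.cast_sub hβ1, Nat.cast_one]
    rw [h4] at h3
    have h5 := Real.log_two_gt_d9
    have h6 : (1 : ℝ) ≤ β := by exact_mod_cast hβ1
    nlinarith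
  have h1 : (n : ℝ) ≤ (C : ℝ) * (β : ℝ) ^ 11 * S.card := by
    have h2 : n ≤ C * β ^ 11 * S.card := hS3.trans (Nat.mul_le_mul_right _ (hCb β hβ1))
    exact_mod_cast h2
  have h3 : (C : ℝ) * (β : ℝ) ^ 11 * S.card ≤ C * (3 * Real.log n) ^ 11 * S.card := by
    refine mul_le_mul_of_nonneg_right (mul_le_mul_of_nonneg_left ?_ hC'.le) (Nat.cast_nonneg _)
    exact pow_le_pow_left₀ (Nat.cast_nonneg _) hβlog 11
  have hlp : 0 < (Real.log n) ^ 11 := by positivity
  rw [div_le_iff₀ hlp, one_div, inv_mul_le_iff₀ (by positivity)]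
  calc (n : ℝ) ≤ _ := h1
    _ ≤ _ := h3
    _ = C * 3 ^ 11 * (S.card * Real.log n ^ 11) := by ring

end H63P
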