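import Pool.Agent.Lib.H63P.CE1

/-! # H63P, chunk CF2: `gm` for empty `B` -/

open Finset H38P

namespace H63P

variable {α : Type} [LinearOrder α] [Fintype α]

/-- PROOF. If `X.card ≤ 1` take `X' = X`, `M = ∅`; `Cov cr 1 X`: if `X = {x}` the cover of `hX` contains `(C, r)` with
`x ∈ C`; use `({x}, r)` (`Out {x} r` from `Out C r`, `Chain` is trivial); if `X = ∅` the empty family. If
`2 ≤ X.card` take `X' = ∅`. For every `c ∈ S` (cover, at most `K` pairs) `grow1` with `O = ∅` for `C ∩ X` gives `D_c` with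
`(C ∩ X \ D_c).card ≤ 1` (`Lo` is true for `O = ∅`), so `(C ∩ X).card ≤ 2 β pl + 1`, `pl = pl cr xx I ∅`, and
`X.card ≤ K (2 β pl + 1)`. `1 ≤ pl` because of the matching `{(x, y)}` for two different points `x, y` of `X`. So
`X.card ≤ (2 K β + K) pl`. -/
theorem gm0 {cr : α → α → α → Prop} {xx : α → α → α → α → Prop} (hF : FC cr xx) (K β : ℕ)
    (hβ : Fintype.card α ≤ 2 ^ β) (I X : Finset α) (hXI : X ⊆ I) (hX : Cov cr K X) :
    ∃ X' ⊆ X, X'.card ≤ 1 ∧ Cov cr 1 X' ∧ ∃ M, Mat cr xx I ∅ M ∧
      X.card ≤ X'.card + (2 * K * β + K) * M.card := by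
  classical
  have hemp : ∀ Z : Finset α, Z = ∅ → Cov cr 1 Z := by
    rintro Z rfl
    exact ⟨∅, by simp, fun x hx => absurd hx (notMem_empty x), fun c hc => absurd hc (notMem_empty c)⟩
  have hM0 : Mat cr xx I ∅ ∅ := by
    refine ⟨⟨?_, ?_, ?_⟩, ?_, ?_⟩ <;> intro e he <;> exact absurd he (notMem_empty e)
  obtain ⟨S, hS1, hS2, hS3⟩ := hX
  rcases Nat.lt_or_ge X.card 2 with hlt | hge
  · refine ⟨X, Subset.refl _, by omega, ?_, ∅, hM0, Nat.le_add_right _ _⟩
    rcases X.eq_empty_or_nonempty with h0 | ⟨x, hx⟩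
    · exact hemp X h0
    · have hXx : X = {x} := by
        refine eq_singleton_iff_unique_mem.2 ⟨hx, fun y hy => ?_⟩
        exact card_le_one.1 (by omega) y hy x hx
      obtain ⟨c, hc1, hc2⟩ := hS2 x hx
      refine ⟨{({x}, c.2)}, by simp, ?_, ?_⟩
      · intro y hy
        rw [hXx] at hy
        exact ⟨({x}, c.2), mem_singleton_self _, hy⟩
      · intro c' hc'
        rw [mem_singleton] at hc'
        subst hc'
        refine ⟨?_, ?_⟩
        · rcases (hS3 c hc1).1 with h | h
          · refine Or.inl fun y hy => ?_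
            rw [mem_singleton.1 hy]
            exact h x hc2
          · refine Or.inr fun y hy => ?_
            rw [mem_singleton.1 hy]
            exact h x hc2
        · intro y hy z hz hyz
          exact absurd ((mem_singleton.1 hy).trans (mem_singleton.1 hz).symm) hyz
  · obtain ⟨⟨M, hM1, hM2⟩, hM3⟩ := pl_spec cr xx I ∅
    refine ⟨∅, empty_subset _, by simp, hemp ∅ rfl, M, hM1, ?_⟩
    rw [hM2, card_empty, zero_add]
    obtain ⟨pI, hpI⟩ : ∃ pI, pI = pl cr xx I ∅ := ⟨_, rfl⟩
    rw [← hpI]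
    have hpl : 1 ≤ pI := by
      obtain ⟨x, hx, y, hy, hxy⟩ := one_lt_card.1 (by omega : 1 < X.card)
      have h1 : Mat cr xx I ∅ {(x, y)} := by
        refine ⟨⟨?_, ?_, ?_⟩, ?_, ?_⟩
        · intro e he
          rw [mem_singleton.1 he]
          exact hxy
        · intro e he f hf hef
          exact absurd ((mem_singleton.1 he).trans (mem_singleton.1 hf).symm) hef
        · intro e he f hf hef
          exact absurd ((mem_singleton.1 he).trans (mem_singleton.1 hf).symm) hef
        · intro e he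
          rw [mem_singleton.1 he]
          exact ⟨hXI hx, hXI hy⟩
        · intro e _ z hz
          exact absurd hz (notMem_empty z)
      have h2 := hM3 _ h1
      rw [card_singleton, ← hpI] at h2
      exact h2
    have hc : ∀ c ∈ S, (c.1 ∩ X).card ≤ 2 * β * pI + 1 := by
      intro c hc
      have hout : Out (c.1 ∩ X) c.2 := by
        rcases (hS3 c hc).1 with h | h
        · exact Or.inl fun x hx => h x (mem_inter.1 hx).1
        · exact Or.inr fun x hx => h x (mem_inter.1 hx).1
      have hch : Chain cr (c.1 ∩ X) c.2 := fun x hx y hy hxy =>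
        (hS3 c hc).2 x (mem_inter.1 hx).1 y (mem_inter.1 hy).1 hxy
      obtain ⟨D, hD1, hD2, hD3⟩ := grow1 hF ∅ (c.1 ∩ X) c.2
        (fun o ho => absurd ho (notMem_empty o)) hout hch
      have h1 : ((c.1 ∩ X) \ D).card ≤ 1 := by
        rw [card_le_one]
        intro x hx y hy
        by_contra hxy
        rcases lt_or_gt_of_ne hxy with h | h
        · exact hD3 x hx y hy h fun o ho => absurd ho (notMem_empty o)
        · exact hD3 y hy x hx h fun o ho => absurd ho (notMem_empty o)
      have h2 : Nat.clog 2 (c.1 ∩ X).card ≤ β :=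
        Nat.clog_le_of_le_pow ((card_le_univ _).trans hβ)
      have h3 : pl cr xx (c.1 ∩ X) ∅ ≤ pI := by
        rw [hpI]
        exact pl_mono cr xx ∅ (inter_subset_right.trans hXI)
      have h4 : D.card ≤ 2 * β * pI :=
        hD2.trans (Nat.mul_le_mul (Nat.mul_le_mul_left 2 h2) h3)
      have h5 : (c.1 ∩ X).card ≤ ((c.1 ∩ X) \ D).card + D.card := by
        have h6 := card_sdiff_add_card (s := c.1 ∩ X) (t := D)
        have h7 := card_le_card (subset_union_left (s₁ := c.1 ∩ X) (s₂ := D))
        omega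
      omega
    have h1 : X ⊆ S.biUnion fun c => c.1 ∩ X := by
      intro x hx
      obtain ⟨c, hc1, hc2⟩ := hS2 x hx
      exact mem_biUnion.2 ⟨c, hc1, mem_inter.2 ⟨hc2, hx⟩⟩
    have h2 : X.card ≤ S.card * (2 * β * pI + 1) := by
      refine (card_le_card h1).trans (card_biUnion_le.trans ?_)
      refine (sum_le_sum hc).trans (le_of_eq ?_)
      rw [sum_const, smul_eq_mul]
    have h3 : S.card * (2 * β * pI + 1) ≤ K * (2 * β * pI + 1) := Nat.mul_le_mul_right _ hS1
    have h4 : K * (2 * β * pI + 1) = 2 * K * β * pI + K := by ring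
    have h5 : K ≤ K * pI := Nat.le_mul_of_pos_right K hpl
    have h6 : (2 * K * β + K) * pI = 2 * K * β * pI + K * pI := by ring
    omega

end H63P
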