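import Pool.Agent.Lib.H63P.CF1
import Pool.Agent.Lib.H63P.CF2

/-! # H63P, chunk CG: module C, the statement `gm` of `H38P.Hyp` -/

open Finset H38P

namespace H63P

variable {α : Type} [LinearOrder α] [Fintype α]

/-- PROOF. `B = ∅`: `gm0`, `Cov cr 1 X'` implies `Cov cr (R ^ 2) X'` (`1 ≤ R`), `X'.card ≤ 1 ≤ K`. `B` nonempty: `gm1`. The
factors are `≤ (2 K + 2 (K R)²) β + K`. -/
theorem gm {cr : α → α → α → Prop} {xx : α → α → α → α → Prop} (hF : FC cr xx) (K R β : ℕ)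
    (hβ : Fintype.card α ≤ 2 ^ β) (hK : 1 ≤ K) (hR : 1 ≤ R) :
    ∀ I B X : Finset α, (∀ z ∈ B, Out I z) → B.card ≤ R → X ⊆ I → Cov cr K X →
      ∃ X' ⊆ X, Cov cr (R ^ 2) X' ∧ (B = ∅ → X'.card ≤ K) ∧ ∃ M, Mat cr xx I B M ∧
        X.card ≤ X'.card + ((2 * K + 2 * (K * R) ^ 2) * β + K) * M.card := by
  intro I B X hB hBR hXI hX
  rcases B.eq_empty_or_nonempty with h0 | h0
  · subst h0
    obtain ⟨X', h1, h2, ⟨S, hS1, hS2, hS3⟩, M, hM, h4⟩ := gm0 hF K β hβ I X hXI hX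
    refine ⟨X', h1, ⟨S, hS1.trans (Nat.one_le_pow _ _ hR), hS2, hS3⟩, fun _ => h2.trans hK, M, hM, ?_⟩
    refine h4.trans (Nat.add_le_add_left (Nat.mul_le_mul_right _ ?_) _)
    refine Nat.add_le_add_right (Nat.mul_le_mul_right _ ?_) _
    exact Nat.le_add_right _ _
  · obtain ⟨X', h1, h2, M, hM, h4⟩ := gm1 hF K R β hβ I B X h0 hB hBR hXI hX
    refine ⟨X', h1, h2, fun h => absurd h h0.ne_empty, M, hM, ?_⟩
    exact h4.trans (Nat.add_le_add_left (Nat.mul_le_mul_right _ (Nat.le_add_right _ _)) _)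

end H63P
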