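import Mathlib

/-! # H63P, chunk CA: stable matchings

`E` is a finite bipartite graph (edges `(x, p)`), `PA x p q`: `x` prefers `p` to `q`,
`PB p x y`: `p` prefers `x` to `y`; on the neighbours of a vertex the preference is a strict
linear order.

PROOF (fixed point). For `S ⊆ E` let `CA S` = the edges `(x, p) ∈ S` such that no `(x, q) ∈ S` has
`PA x q p`; `CB S` = the edges `(x, p) ∈ S` such that no `(y, p) ∈ S` has `PB p y x`. The map
`F S = E \ (T \ CB T)`, `T = E \ (S \ CA S)`, is monotone (`S ↦ S \ CA S` is monotone: an edge of `S`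
dominated in `S` is dominated in a larger set; same for `CB`; complements reverse inclusions
twice). Let `S` be a fixed point (for instance the union of all `S ⊆ E` with `S ⊆ F S`, or
`OrderHom.lfp` on `Set`), `T = E \ (S \ CA S)`, so `S = E \ (T \ CB T)`. Put `M = S ∩ T`. Then
`M = CA S` (`S ∩ T = S \ (S \ CA S)`, as `S ⊆ E`) and `M = CB T`, `S ∪ T = E`.
`M` is a matching: two edges `(x,p), (x,q)` of `CA S`, `p ≠ q`: totality gives a domination,
contradiction; two edges `(x,p), (y,p)` of `CB T` similarly. Stability: let `e = (x,p) ∈ E \ M`.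
If `e ∈ S`, then `e ∉ CA S`; the edges `(x, q) ∈ S` form a finite nonempty set; its `PA x`-best edge
`f` (finite strict order) is in `CA S = M`; `f ≠ e`, and `PA x f.2 p` by totality (not `PA x p f.2`
because `f` is best). If `e ∉ S` then `e ∈ T \ CB T`, the same with `PB`. -/

namespace H63P

theorem ca_max {β : Type*} [DecidableEq β] (R : β → β → Prop) (s : Finset β) (hne : s.Nonempty)
    (hirr : ∀ a ∈ s, ¬ R a a) (htr : ∀ a ∈ s, ∀ b ∈ s, ∀ c ∈ s, R a b → R b c → R a c) :
    ∃ m ∈ s, ∀ y ∈ s, ¬ R y m := by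
  classical
  induction s using Finset.induction_on with
  | empty => exact absurd hne Finset.not_nonempty_empty
  | insert a s ha ih =>
    by_cases hs : s.Nonempty
    · obtain ⟨m, hm, hmax⟩ := ih hs (fun b hb => hirr b (Finset.mem_insert_of_mem hb))
        (fun b hb c hc d hd => htr b (Finset.mem_insert_of_mem hb) c (Finset.mem_insert_of_mem hc) d
          (Finset.mem_insert_of_mem hd))
      by_cases h : R a m
      · refine ⟨a, Finset.mem_insert_self a s, fun y hy hya => ?_⟩
        rcases Finset.mem_insert.1 hy with rfl | hy'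
        · exact hirr y hy hya
        · exact hmax y hy' (htr y hy a (Finset.mem_insert_self a s) m (Finset.mem_insert_of_mem hm) hya h)
      · refine ⟨m, Finset.mem_insert_of_mem hm, fun y hy hym => ?_⟩
        rcases Finset.mem_insert.1 hy with rfl | hy'
        · exact h hym
        · exact hmax y hy' hym
    · rw [Finset.not_nonempty_iff_eq_empty] at hs
      subst hs
      refine ⟨a, Finset.mem_insert_self a _, fun y hy hya => ?_⟩
      rcases Finset.mem_insert.1 hy with rfl | hy'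
      · exact hirr y hy hya
      · exact absurd hy' (Finset.notMem_empty y)

theorem stab {α : Type*} [DecidableEq α] (E : Finset (α × α)) (PA PB : α → α → α → Prop)
    (A1 : ∀ x p, (x, p) ∈ E → ¬ PA x p p)
    (A2 : ∀ x p q r, (x, p) ∈ E → (x, q) ∈ E → (x, r) ∈ E → PA x p q → PA x q r → PA x p r)
    (A3 : ∀ x p q, (x, p) ∈ E → (x, q) ∈ E → p ≠ q → PA x p q ∨ PA x q p)
    (B1 : ∀ p x, (x, p) ∈ E → ¬ PB p x x)
    (B2 : ∀ p x y z, (x, p) ∈ E → (y, p) ∈ E → (z, p) ∈ E → PB p x y → PB p y z → PB p x z)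
    (B3 : ∀ p x y, (x, p) ∈ E → (y, p) ∈ E → x ≠ y → PB p x y ∨ PB p y x) :
    ∃ M ⊆ E, (∀ e ∈ M, ∀ f ∈ M, e ≠ f → e.1 ≠ f.1 ∧ e.2 ≠ f.2) ∧
      ∀ e ∈ E, e ∉ M → (∃ f ∈ M, f.1 = e.1 ∧ PA e.1 f.2 e.2) ∨
        ∃ f ∈ M, f.2 = e.2 ∧ PB e.2 f.1 e.1 := by
  classical
  let DA : Set (α × α) → α × α → Prop := fun S e => e ∈ S ∧ ∃ q, (e.1, q) ∈ S ∧ PA e.1 q e.2
  let DB : Set (α × α) → α × α → Prop := fun S e => e ∈ S ∧ ∃ y, (y, e.2) ∈ S ∧ PB e.2 y e.1
  let Tf : Set (α × α) → Set (α × α) := fun S => {e | e ∈ E ∧ ¬ DA S e}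
  let Ff : Set (α × α) → Set (α × α) := fun S => {e | e ∈ E ∧ ¬ DB (Tf S) e}
  have hDA : ∀ S S' : Set (α × α), S ⊆ S' → ∀ e, DA S e → DA S' e := by
    rintro S S' h e ⟨h1, q, h2, h3⟩
    exact ⟨h h1, q, h h2, h3⟩
  have hDB : ∀ S S' : Set (α × α), S ⊆ S' → ∀ e, DB S e → DB S' e := by
    rintro S S' h e ⟨h1, q, h2, h3⟩
    exact ⟨h h1, q, h h2, h3⟩
  have hmono : Monotone Ff := by
    intro S S' h e he
    refine ⟨he.1, fun h1 => he.2 (hDB _ _ ?_ e h1)⟩
    intro e' he'
    exact ⟨he'.1, fun h2 => he'.2 (hDA S S' h e' h2)⟩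
  let Fo : Set (α × α) →o Set (α × α) := ⟨Ff, hmono⟩
  have hfix : Ff (OrderHom.lfp Fo) = OrderHom.lfp Fo := OrderHom.map_lfp Fo
  generalize OrderHom.lfp Fo = S at hfix
  have hS : ∀ e, e ∈ S ↔ e ∈ E ∧ ¬ DB (Tf S) e := by
    intro e
    constructor
    · intro h
      rw [← hfix] at h
      exact h
    · intro h
      rw [← hfix]
      exact h
  have hT : ∀ e, e ∈ Tf S ↔ e ∈ E ∧ ¬ DA S e := fun e => Iff.rfl
  refine ⟨E.filter (fun e => e ∈ S ∧ e ∈ Tf S), Finset.filter_subset _ _, ?_, ?_⟩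
  · rintro ⟨x, p⟩ he ⟨y, q⟩ hf hne
    rw [Finset.mem_filter] at he hf
    obtain ⟨e1, e2, e3⟩ := he
    obtain ⟨f1, f2, f3⟩ := hf
    constructor
    · intro hxy
      change x = y at hxy
      subst hxy
      have hpq : p ≠ q := fun h => hne (by rw [h])
      rcases A3 x p q e1 f1 hpq with h | h
      · exact f3.2 ⟨f2, p, e2, h⟩
      · exact e3.2 ⟨e2, q, f2, h⟩
    · intro hpq
      change p = q at hpq
      subst hpq
      have hxy : x ≠ y := fun h => hne (by rw [h])
      rcases B3 p x y e1 f1 hxy with h | h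
      · exact ((hS _).1 f2).2 ⟨f3, x, e3, h⟩
      · exact ((hS _).1 e2).2 ⟨e3, y, f3, h⟩
  · rintro ⟨x, p⟩ he hM
    rw [Finset.mem_filter, not_and] at hM
    have hM' := hM he
    by_cases hs : (x, p) ∈ S
    · left
      have hnT : (x, p) ∉ Tf S := fun h => hM' ⟨hs, h⟩
      have hdom : DA S (x, p) := by
        by_contra h
        exact hnT ⟨he, h⟩
      obtain ⟨f, hf, hfmax⟩ := ca_max (fun a b : α × α => PA x a.2 b.2) (E.filter (fun e => e ∈ S ∧ e.1 = x))
        ⟨(x, p), Finset.mem_filter.2 ⟨he, hs, rfl⟩⟩ (by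
          rintro ⟨a, q⟩ ha
          rw [Finset.mem_filter] at ha
          obtain ⟨a1, a2, a3⟩ := ha
          change a = x at a3
          subst a3
          exact A1 a q a1) (by
          rintro ⟨a, q⟩ ha ⟨b, r⟩ hb ⟨c, t⟩ hc h1 h2
          rw [Finset.mem_filter] at ha hb hc
          obtain ⟨a1, a2, a3⟩ := ha
          obtain ⟨b1, b2, b3⟩ := hb
          obtain ⟨c1, c2, c3⟩ := hc
          change a = x at a3
          change b = x at b3
          change c = x at c3
          subst a3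
          rw [b3] at b1
          rw [c3] at c1
          exact A2 a q r t a1 b1 c1 h1 h2)
      obtain ⟨y, q⟩ := f
      rw [Finset.mem_filter] at hf
      obtain ⟨f1, f2, f3⟩ := hf
      change y = x at f3
      subst f3
      have hnd : ¬ DA S (y, q) := by
        rintro ⟨-, r, g1, g2⟩
        exact hfmax (y, r) (Finset.mem_filter.2 ⟨((hS _).1 g1).1, g1, rfl⟩) g2
      have hqp : q ≠ p := by
        intro h
        rw [h] at hnd
        exact hnd hdom
      refine ⟨(y, q), Finset.mem_filter.2 ⟨f1, f2, f1, hnd⟩, rfl, ?_⟩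
      rcases A3 y q p f1 he hqp with h | h
      · exact h
      · exact absurd ⟨f2, p, hs, h⟩ hnd
    · right
      have hdom : DB (Tf S) (x, p) := by
        by_contra h
        exact hs ((hS _).2 ⟨he, h⟩)
      obtain ⟨f, hf, hfmax⟩ := ca_max (fun a b : α × α => PB p a.1 b.1) (E.filter (fun e => e ∈ Tf S ∧ e.2 = p))
        ⟨(x, p), Finset.mem_filter.2 ⟨he, hdom.1, rfl⟩⟩ (by
          rintro ⟨a, q⟩ ha
          rw [Finset.mem_filter] at ha
          obtain ⟨a1, a2, a3⟩ := ha
          change q = p at a3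
          subst a3
          exact B1 q a a1) (by
          rintro ⟨a, q⟩ ha ⟨b, r⟩ hb ⟨c, t⟩ hc h1 h2
          rw [Finset.mem_filter] at ha hb hc
          obtain ⟨a1, a2, a3⟩ := ha
          obtain ⟨b1, b2, b3⟩ := hb
          obtain ⟨c1, c2, c3⟩ := hc
          change q = p at a3
          change r = p at b3
          change t = p at c3
          subst a3
          rw [b3] at b1
          rw [c3] at c1
          exact B2 q a b c a1 b1 c1 h1 h2)
      obtain ⟨y, q⟩ := f
      rw [Finset.mem_filter] at hf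
      obtain ⟨f1, f2, f3⟩ := hf
      change q = p at f3
      subst f3
      have hnd : ¬ DB (Tf S) (y, q) := by
        rintro ⟨-, r, g1, g2⟩
        exact hfmax (r, q) (Finset.mem_filter.2 ⟨g1.1, g1, rfl⟩) g2
      have hyx : y ≠ x := by
        intro h
        rw [h] at hnd
        exact hnd hdom
      refine ⟨(y, q), Finset.mem_filter.2 ⟨f1, (hS _).2 ⟨f1, hnd⟩, f2⟩, rfl, ?_⟩
      rcases B3 q y x f1 he hyx with h | h
      · exact h
      · exact absurd ⟨f2, x, hdom.1, h⟩ hnd

end H63P
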