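import Pool.Agent.Lib.H63P.FC
import Pool.Agent.Lib.H63P.CA

/-! # H63P, chunk CB: a plane matching which covers all local pairs between two sets

PROOF. Apply `stab` (chunk CA) to `E = {(x, p) ∈ A ×ˢ C : Lo cr O x p}` (filter, classical),
`PA = pU cr`, `PB = pD cr`. Irreflexive: both disjuncts of `pU cr x p p` contain `p < p`. Total for
`p ≠ q`: `ad` is symmetric (`ad cr x p q ↔ ad cr x q p`, Or.comm), by cases `p < q` or `q < p` and
`ad` or not. Transitive: `FC.pUt`, `FC.pDt` (all of `C` is above all of `A`).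
`M ⊆ E` from `stab`. `PM xx M`: `ne`: `e.1 < e.2` by `hlt`. `disj`: `e.1 ≠ f.1`, `e.2 ≠ f.2` from `stab`;
`e.1 < f.2` and `f.1 < e.2` by `hlt` (so `e.1 ≠ f.2`, `e.2 ≠ f.1`). `plane`: let
`e = (x, p)`, `f = (y, q)` be different edges of `M` with `xx x p y q`; by `xsymm` we may assume `x < y`
(`x ≠ y`). If `p < q`: `Top.iso` for `x y p q` (`hT`): the pair `(x, q)` is not blocking: if
`Lo x q ∧ pU x q p ∧ pD q x y`, then `(x, q) ∈ E`, `(x, q) ∉ M` (else it equals `(x,p)`, as the first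
coordinates of different elements of `M` are different), so by stability there is `g ∈ M` with
`g.1 = x`, `pU x g.2 q`: then `g = (x,p)`, `pU x p q`, with `pU x q p` and transitivity `pU x q q`,
contradiction to irreflexivity; or `g.2 = q`, `pD q g.1 x`: then `g = (y, q)`, `pD q y x` against
`pD q x y`. The same for `(y, p)`. If `q < p`: `Top.anti` for `x y q p` (the edges are `x p` and `y q`,
`p` is the larger one: `Top.anti` with the third and fourth arguments `q`, `p`), same argument.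
The last clause: `(x, p) ∈ E`: if it is in `M`, take it; otherwise stability gives `g ∈ M` with
`g.1 = x` or `g.2 = p`. -/

open Finset H38P

namespace H63P

variable {α : Type} [LinearOrder α] [Fintype α]

theorem cb_irU {cr : α → α → α → Prop} (x p : α) : ¬ pU cr x p p := by
  rintro (h | h) <;> exact lt_irrefl _ h.1

theorem cb_irD {cr : α → α → α → Prop} (p x : α) : ¬ pD cr p x x := by
  rintro (h | h) <;> exact lt_irrefl _ h.1

theorem cb_ad {cr : α → α → α → Prop} {x p q : α} : ad cr x p q ↔ ad cr x q p := or_comm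

theorem cb_toU {cr : α → α → α → Prop} {x p q : α} (h : p ≠ q) : pU cr x p q ∨ pU cr x q p := by
  rcases lt_or_gt_of_ne h with h1 | h1
  · by_cases h2 : ad cr x p q
    · exact Or.inr (Or.inr ⟨h1, cb_ad.1 h2⟩)
    · exact Or.inl (Or.inl ⟨h1, h2⟩)
  · by_cases h2 : ad cr x p q
    · exact Or.inl (Or.inr ⟨h1, h2⟩)
    · exact Or.inr (Or.inl ⟨h1, fun h3 => h2 (cb_ad.1 h3)⟩)

theorem cb_toD {cr : α → α → α → Prop} {p x y : α} (h : x ≠ y) : pD cr p x y ∨ pD cr p y x := by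
  rcases lt_or_gt_of_ne h with h1 | h1
  · by_cases h2 : ad cr p x y
    · exact Or.inl (Or.inr ⟨h1, h2⟩)
    · exact Or.inr (Or.inl ⟨h1, fun h3 => h2 (cb_ad.1 h3)⟩)
  · by_cases h2 : ad cr p x y
    · exact Or.inr (Or.inr ⟨h1, cb_ad.1 h2⟩)
    · exact Or.inl (Or.inl ⟨h1, h2⟩)

theorem bip {cr : α → α → α → Prop} {xx : α → α → α → α → Prop} (hF : FC cr xx) (O A C : Finset α)
    (hlt : ∀ x ∈ A, ∀ p ∈ C, x < p)
    (hT : ∀ x ∈ A, ∀ y ∈ A, ∀ p ∈ C, ∀ q ∈ C, x < y → p < q → Top cr xx O x y p q) :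
    ∃ M : Finset (α × α), PM xx M ∧ (∀ e ∈ M, e.1 ∈ A ∧ e.2 ∈ C ∧ Lo cr O e.1 e.2) ∧
      ∀ x ∈ A, ∀ p ∈ C, Lo cr O x p → ∃ e ∈ M, e.1 = x ∨ e.2 = p := by
  classical
  set E : Finset (α × α) := (A ×ˢ C).filter (fun e => Lo cr O e.1 e.2) with hE
  have mE : ∀ {x p : α}, (x, p) ∈ E ↔ (x ∈ A ∧ p ∈ C) ∧ Lo cr O x p := by
    intro x p
    rw [hE, mem_filter, mem_product]
  have lE : ∀ {x p : α}, (x, p) ∈ E → x < p := fun h => hlt _ (mE.1 h).1.1 _ (mE.1 h).1.2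
  obtain ⟨M, hM, hmat, hst⟩ := stab E (pU cr) (pD cr) (fun x p _ => cb_irU x p)
    (fun x p q r h1 h2 h3 h4 h5 => hF.pUt x p q r (lE h1) (lE h2) (lE h3) h4 h5)
    (fun x p q _ _ h => cb_toU h) (fun p x _ => cb_irD p x)
    (fun p x y z h1 h2 h3 h4 h5 => hF.pDt p x y z (lE h1) (lE h2) (lE h3) h4 h5)
    (fun p x y _ _ h => cb_toD h)
  have hM' : ∀ e ∈ M, (e.1 ∈ A ∧ e.2 ∈ C) ∧ Lo cr O e.1 e.2 := fun e he => mE.1 (hM he)
  have hl : ∀ e ∈ M, ∀ f ∈ M, e.1 < f.2 := fun e he f hf => hlt _ (hM' e he).1.1 _ (hM' f hf).1.2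
  have h1eq : ∀ e ∈ M, ∀ f ∈ M, e.1 = f.1 → e = f := by
    intro e he f hf h
    by_contra hne
    exact (hmat e he f hf hne).1 h
  have h2eq : ∀ e ∈ M, ∀ f ∈ M, e.2 = f.2 → e = f := by
    intro e he f hf h
    by_contra hne
    exact (hmat e he f hf hne).2 h
  have hblk : ∀ e ∈ M, ∀ f ∈ M, e ≠ f →
      ¬ (Lo cr O e.1 f.2 ∧ pU cr e.1 f.2 e.2 ∧ pD cr f.2 e.1 f.1) := by
    intro e he f hf hne h
    obtain ⟨h1, h2, h3⟩ := h
    have h4 : (e.1, f.2) ∈ E := mE.2 ⟨⟨(hM' e he).1.1, (hM' f hf).1.2⟩, h1⟩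
    have h5 : (e.1, f.2) ∉ M := by
      intro h6
      have h7 := h1eq _ h6 e he rfl
      have h8 : ((e.1, f.2) : α × α).2 = e.2 := by rw [h7]
      exact (hmat e he f hf hne).2 h8.symm
    rcases hst _ h4 h5 with ⟨g, hg, hg1, hg2⟩ | ⟨g, hg, hg1, hg2⟩
    · have h6 : g = e := h1eq g hg e he hg1
      subst h6
      exact cb_irU _ _ (hF.pUt g.1 g.2 f.2 g.2 (hl _ hg _ hg) (hl _ hg _ hf) (hl _ hg _ hg) hg2 h2)
    · have h6 : g = f := h2eq g hg f hf hg1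
      subst h6
      exact cb_irD _ _ (hF.pDt g.2 g.1 e.1 g.1 (hl _ hg _ hg) (hl _ he _ hg) (hl _ hg _ hg) hg2 h3)
  have hpl : ∀ e ∈ M, ∀ f ∈ M, e.1 < f.1 → ¬ xx e.1 e.2 f.1 f.2 := by
    intro e he f hf h hx
    have hne : e ≠ f := by
      intro h'
      rw [h'] at h
      exact lt_irrefl _ h
    have b1 := hblk e he f hf hne
    have b2 := hblk f hf e he hne.symm
    rcases lt_or_gt_of_ne (hmat e he f hf hne).2 with h2 | h2
    · exact (hT e.1 (hM' e he).1.1 f.1 (hM' f hf).1.1 e.2 (hM' e he).1.2 f.2 (hM' f hf).1.2 h h2).iso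
        (hM' e he).2 (hM' f hf).2 hx b1 b2
    · exact (hT e.1 (hM' e he).1.1 f.1 (hM' f hf).1.1 f.2 (hM' f hf).1.2 e.2 (hM' e he).1.2 h h2).anti
        (hM' e he).2 (hM' f hf).2 hx b1 b2
  refine ⟨M, ⟨fun e he => (hl e he e he).ne, fun e he f hf hne => ?_, fun e he f hf hne hx => ?_⟩,
    fun e he => ⟨(hM' e he).1.1, (hM' e he).1.2, (hM' e he).2⟩, fun x hx p hp h => ?_⟩
  · exact ⟨(hmat e he f hf hne).1, (hl e he f hf).ne, (hl f hf e he).ne', (hmat e he f hf hne).2⟩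
  · rcases lt_or_gt_of_ne (hmat e he f hf hne).1 with h2 | h2
    · exact hpl e he f hf h2 hx
    · exact hpl f hf e he h2 (hF.xsymm _ _ _ _ hx)
  · have h1 : (x, p) ∈ E := mE.2 ⟨⟨hx, hp⟩, h⟩
    by_cases h2 : (x, p) ∈ M
    · exact ⟨_, h2, Or.inl rfl⟩
    · rcases hst _ h1 h2 with ⟨g, hg, hg1, _⟩ | ⟨g, hg, hg1, _⟩
      · exact ⟨g, hg, Or.inl hg1⟩
      · exact ⟨g, hg, Or.inr hg1⟩

end H63P
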