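import Pool.Agent.Lib.H63P.FC

/-! # H63P, chunk CC0: the maximal size of a plane matching -/

open Finset H38P

namespace H63P

variable {α : Type} [LinearOrder α] [Fintype α]

/-- sets all of whose cross pairs cross a ray of `O`.
PROOF. `pl` is the sup of the cards over the finite nonempty (`∅`) family: `Finset.exists_mem_eq_sup`
and `Finset.le_sup`. -/
theorem pl_spec (cr : α → α → α → Prop) (xx : α → α → α → α → Prop) (I B : Finset α) :
    (∃ M, Mat cr xx I B M ∧ M.card = pl cr xx I B) ∧ ∀ M, Mat cr xx I B M → M.card ≤ pl cr xx I B := by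
  classical
  have hne : ((univ : Finset (Finset (α × α))).filter (fun M => Mat cr xx I B M)).Nonempty :=
    ⟨∅, by
      rw [mem_filter]
      exact ⟨mem_univ _, ⟨⟨fun e he => absurd he (notMem_empty e), fun e he => absurd he (notMem_empty e),
        fun e he => absurd he (notMem_empty e)⟩, fun e he => absurd he (notMem_empty e),
        fun e he => absurd he (notMem_empty e)⟩⟩⟩
  constructor
  · obtain ⟨M, hM, h⟩ := Finset.exists_mem_eq_sup _ hne Finset.card
    refine ⟨M, (mem_filter.1 hM).2, ?_⟩
    unfold pl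
    rw [← h]
  · intro M hM
    unfold pl
    exact Finset.le_sup (f := Finset.card) (mem_filter.2 ⟨mem_univ M, hM⟩)

/-- PROOF. `pl_spec`: a `Mat` for the smaller set is a `Mat` for the larger set. -/
theorem pl_mono (cr : α → α → α → Prop) (xx : α → α → α → α → Prop) {I J : Finset α} (B : Finset α)
    (h : I ⊆ J) : pl cr xx I B ≤ pl cr xx J B := by
  obtain ⟨⟨M, hM, hc⟩, -⟩ := pl_spec cr xx I B
  rw [← hc]
  exact (pl_spec cr xx J B).2 M ⟨hM.pm, fun e he => ⟨h (hM.ins e he).1, h (hM.ins e he).2⟩, hM.av⟩

end H63P
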