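import Pool.Agent.Lib.H63P.CC0

/-! # H63P, chunk CC1: superadditivity -/

open Finset H38P

namespace H63P

variable {α : Type} [LinearOrder α] [Fintype α]

/-- PROOF. Take `M1`, `M2` attaining the two values (`pl_spec`). `M1 ∪ M2` is a `Mat` for `Y ∪ Z`: edges of
`M1` have both ends in `Y`, those of `M2` in `Z`, so they are disjoint and different, and
`M1`, `M2` are disjoint sets (an edge in both would have `e.1 ∈ Y`, `e.1 ∈ Z`, so `e.1 < e.1`), so the card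
is the sum. Crossing: `e ∈ M1`, `f ∈ M2`: let `x < y` be the ends of `e` in increasing order, `p < q` those
of `f`; `y < p`. `FC.sep` gives `¬ xx x y p q`, hence (xsymm, xsymm1) `¬ xx e.1 e.2 f.1 f.2`. The
hypotheses of `sep`: `Lo O x y` by `Mat.av` (and `FC.symm`), `¬ Lo x p`, `¬ Lo y q` by `hcross`, `hO` by the
hypothesis `hO`. Finally `pl_spec` for `Y ∪ Z`. -/
theorem pl_add {cr : α → α → α → Prop} {xx : α → α → α → α → Prop} (hF : FC cr xx) (O Y Z : Finset α)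
    (hlt : ∀ x ∈ Y, ∀ p ∈ Z, x < p) (hO : ∀ o ∈ O, Out (Y ∪ Z) o)
    (hcross : ∀ x ∈ Y, ∀ p ∈ Z, ¬ Lo cr O x p) :
    pl cr xx Y O + pl cr xx Z O ≤ pl cr xx (Y ∪ Z) O := by
  classical
  obtain ⟨⟨M1, hM1, hc1⟩, -⟩ := pl_spec cr xx Y O
  obtain ⟨⟨M2, hM2, hc2⟩, -⟩ := pl_spec cr xx Z O
  have core : ∀ x ∈ Y, ∀ y ∈ Y, ∀ p ∈ Z, ∀ q ∈ Z, x < y → p < q → Lo cr O x y → Lo cr O p q → ¬ xx x y p q := by
    intro x hx y hy p hp q hq hxy hpq h1 h2
    refine hF.sep O x y p q hxy (hlt y hy p hp) hpq (fun o ho => ?_) h1 h2 (hcross x hx p hp) (hcross y hy q hq)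
    rcases hO o ho with h | h
    · exact Or.inl (h x (mem_union_left _ hx))
    · exact Or.inr (h q (mem_union_right _ hq))
  have hsw : ∀ x y, Lo cr O x y → Lo cr O y x := fun x y h o ho hc => h o ho (hF.symm y x o hc)
  have hx2 : ∀ x y z w, xx x y z w → xx x y w z := fun x y z w h =>
    hF.xsymm _ _ _ _ (hF.xsymm1 _ _ _ _ (hF.xsymm _ _ _ _ h))
  have key : ∀ e ∈ M1, ∀ f ∈ M2, ¬ xx e.1 e.2 f.1 f.2 := by
    intro e he f hf hx
    obtain ⟨e1, e2⟩ := hM1.ins e he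
    obtain ⟨f1, f2⟩ := hM2.ins f hf
    have le : Lo cr O e.1 e.2 := fun o ho => hM1.av e he o ho
    have lf : Lo cr O f.1 f.2 := fun o ho => hM2.av f hf o ho
    rcases lt_or_gt_of_ne (hM1.pm.ne e he) with h1 | h1
    · rcases lt_or_gt_of_ne (hM2.pm.ne f hf) with h2 | h2
      · exact core _ e1 _ e2 _ f1 _ f2 h1 h2 le lf hx
      · exact core _ e1 _ e2 _ f2 _ f1 h1 h2 le (hsw _ _ lf) (hx2 _ _ _ _ hx)
    · rcases lt_or_gt_of_ne (hM2.pm.ne f hf) with h2 | h2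
      · exact core _ e2 _ e1 _ f1 _ f2 h1 h2 (hsw _ _ le) lf (hF.xsymm1 _ _ _ _ hx)
      · exact core _ e2 _ e1 _ f2 _ f1 h1 h2 (hsw _ _ le) (hsw _ _ lf) (hx2 _ _ _ _ (hF.xsymm1 _ _ _ _ hx))
  have hdis : Disjoint M1 M2 := by
    rw [Finset.disjoint_left]
    intro e h1 h2
    exact lt_irrefl _ (hlt _ (hM1.ins e h1).1 _ (hM2.ins e h2).1)
  have hne : ∀ x ∈ Y, ∀ p ∈ Z, x ≠ p := fun x hx p hp => (hlt x hx p hp).ne
  rw [← hc1, ← hc2, ← card_union_of_disjoint hdis]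
  refine (pl_spec cr xx (Y ∪ Z) O).2 _ ⟨⟨?_, ?_, ?_⟩, ?_, ?_⟩
  · intro e he
    rcases mem_union.1 he with h | h
    · exact hM1.pm.ne e h
    · exact hM2.pm.ne e h
  · intro e he f hf hef
    rcases mem_union.1 he with h | h <;> rcases mem_union.1 hf with h' | h'
    · exact hM1.pm.disj e h f h' hef
    · obtain ⟨e1, e2⟩ := hM1.ins e h
      obtain ⟨f1, f2⟩ := hM2.ins f h'
      exact ⟨hne _ e1 _ f1, hne _ e1 _ f2, hne _ e2 _ f1, hne _ e2 _ f2⟩
    · obtain ⟨e1, e2⟩ := hM2.ins e h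
      obtain ⟨f1, f2⟩ := hM1.ins f h'
      exact ⟨(hne _ f1 _ e1).symm, (hne _ f2 _ e1).symm, (hne _ f1 _ e2).symm, (hne _ f2 _ e2).symm⟩
    · exact hM2.pm.disj e h f h' hef
  · intro e he f hf hef
    rcases mem_union.1 he with h | h <;> rcases mem_union.1 hf with h' | h'
    · exact hM1.pm.plane e h f h' hef
    · exact key e h f h'
    · exact fun hx => key f h' e h (hF.xsymm _ _ _ _ hx)
    · exact hM2.pm.plane e h f h' hef
  · intro e he
    rcases mem_union.1 he with h | h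
    · exact ⟨mem_union_left _ (hM1.ins e h).1, mem_union_left _ (hM1.ins e h).2⟩
    · exact ⟨mem_union_right _ (hM2.ins e h).1, mem_union_right _ (hM2.ins e h).2⟩
  · intro e he
    rcases mem_union.1 he with h | h
    · exact hM1.av e h
    · exact hM2.av e h

end H63P
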