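import Pool.Agent.Lib.H63P.CB
import Pool.Agent.Lib.H63P.CC1

/-! # H63P, chunk CC2: the GM lemma -/

open Finset H38P

namespace H63P

variable {α : Type} [LinearOrder α] [Fintype α]

theorem cc2_cut {α : Type} [LinearOrder α] (X : Finset α) (k : ℕ) (hk : k ≤ X.card) :
    ∃ Y ⊆ X, Y.card = k ∧ ∀ x ∈ Y, ∀ z ∈ X \ Y, x < z := by
  induction k with
  | zero => exact ⟨∅, by simp, rfl, by simp⟩
  | succ k ih =>
    obtain ⟨Y, hY, hc, hl⟩ := ih (by omega)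
    have hne : (X \ Y).Nonempty := by
      rw [← Finset.card_pos, Finset.card_sdiff_of_subset hY]
      omega
    have hm := Finset.min'_mem _ hne
    refine ⟨insert ((X \ Y).min' hne) Y, ?_, ?_, ?_⟩
    · exact Finset.insert_subset (Finset.mem_sdiff.1 hm).1 hY
    · rw [Finset.card_insert_of_notMem (Finset.mem_sdiff.1 hm).2, hc]
    · intro x hx z hz
      rw [Finset.mem_sdiff, Finset.mem_insert, not_or] at hz
      have hz' : z ∈ X \ Y := Finset.mem_sdiff.2 ⟨hz.1, hz.2.2⟩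
      rcases Finset.mem_insert.1 hx with rfl | hx
      · exact lt_of_le_of_ne (Finset.min'_le _ _ hz') (Ne.symm hz.2.1)
      · exact hl x hx z hz'

theorem cc2_out {α : Type} [LinearOrder α] {X Y : Finset α} (h : Y ⊆ X) {o : α} (ho : Out X o) :
    Out Y o := by
  rcases ho with ho | ho
  · exact Or.inl fun x hx => ho x (h hx)
  · exact Or.inr fun x hx => ho x (h hx)

/-- PROOF, strong induction on `X.card`. If `X.card ≤ 1` take `D = ∅` (two elements `x < y` of `X` do not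
exist). Otherwise choose a cut: `X = Y ∪ Z`, all of `Y` below all of `Z`, `Y.card = ⌈X.card/2⌉`,
`Z.card = ⌊X.card/2⌋` (for instance with `Finset.orderEmbOfFin`, or: there is a subset `Y` of that card which is
downward closed in `X`, by induction). For every pair `C, D ∈ 𝒮` take the matching `M_{CD}` of `bip` for
`A := C ∩ Y` and `C := D ∩ Z`; `V_{CD}` = its end points, `card ≤ 2 * M_{CD}.card ≤ 2 * pl cr xx X O`
(`M_{CD}` is a `Mat cr xx X O`). Let `D0 = ⋃ V_{CD}`: `D0.card ≤ 𝒮.card ^ 2 * 2 * pl cr xx X O`. Put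
`Y' = Y \ D0`, `Z' = Z \ D0`: for `x ∈ Y'`, `p ∈ Z'` take `C, D ∈ 𝒮` with `x ∈ C`, `p ∈ D`: if `Lo x p`, an edge of
`M_{CD}` ends in `x` or `p`, contradiction; so `¬ Lo x p`. By `pl_add` and monotonicity
(`Mat` for `Y' ∪ Z'` is `Mat` for `X`) `pl Y' + pl Z' ≤ pl X`. Induction for `Y'` and `Z'` with the same
family `𝒮` gives `D1 ⊆ Y'`, `D2 ⊆ Z'`; `D = D0 ∩ X ∪ D1 ∪ D2`. Card: `Y'.card, Z'.card ≤ ⌈X.card/2⌉`, and
`Nat.clog 2 ⌈n/2⌉ + 1 = Nat.clog 2 n` for `n ≥ 2` (`Nat.clog_of_two_le`), `Nat.clog` monotone. So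
`D.card ≤ 2 k² pl X + 2 k² (clog n - 1)(pl Y' + pl Z') ≤ 2 k² clog n * pl X`. -/
theorem gml {cr : α → α → α → Prop} {xx : α → α → α → α → Prop} (hF : FC cr xx) (O : Finset α)
    (𝒮 : Finset (Finset α)) (X : Finset α) (hO : ∀ o ∈ O, Out X o) (hX : ∀ x ∈ X, ∃ C ∈ 𝒮, x ∈ C)
    (hT : ∀ C ∈ 𝒮, ∀ D ∈ 𝒮, ∀ x ∈ C ∩ X, ∀ y ∈ C ∩ X, ∀ p ∈ D ∩ X, ∀ q ∈ D ∩ X,
      x < y → y < p → p < q → Top cr xx O x y p q) :
    ∃ D ⊆ X, D.card ≤ 2 * 𝒮.card ^ 2 * Nat.clog 2 X.card * pl cr xx X O ∧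
      ∀ x ∈ X \ D, ∀ y ∈ X \ D, x < y → ¬ Lo cr O x y := by
  classical
  induction hn : X.card using Nat.strong_induction_on generalizing X with
  | _ n ih =>
  rcases Nat.lt_or_ge n 2 with h2 | h2
  · refine ⟨∅, by simp, by simp, ?_⟩
    intro x hx y hy hxy
    have h1 : X.card ≤ 1 := by omega
    rw [Finset.sdiff_empty] at hx hy
    exact absurd (Finset.card_le_one.1 h1 x hx y hy) hxy.ne
  obtain ⟨Y, hYX, hYc, hYl⟩ := cc2_cut X ((n + 1) / 2) (by omega)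
  have hZc : (X \ Y).card = n - (n + 1) / 2 := by
    rw [Finset.card_sdiff_of_subset hYX, hn, hYc]
  have hV : ∀ c : Finset α × Finset α, ∃ V : Finset α, c ∈ 𝒮 ×ˢ 𝒮 → V.card ≤ 2 * pl cr xx X O ∧
      ∀ x ∈ c.1 ∩ Y, ∀ p ∈ c.2 ∩ (X \ Y), Lo cr O x p → x ∈ V ∨ p ∈ V := by
    intro c
    by_cases hc : c ∈ 𝒮 ×ˢ 𝒮
    swap
    · exact ⟨∅, fun h => absurd h hc⟩
    rw [Finset.mem_product] at hc
    have hlt : ∀ x ∈ c.1 ∩ Y, ∀ p ∈ c.2 ∩ (X \ Y), x < p := fun x hx p hp =>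
      hYl x (Finset.mem_inter.1 hx).2 p (Finset.mem_inter.1 hp).2
    obtain ⟨M, hM, hMi, hMc⟩ := bip hF O (c.1 ∩ Y) (c.2 ∩ (X \ Y)) hlt (by
      intro x hx y hy p hp q hq hxy hpq
      have e1 : ∀ t, t ∈ c.1 ∩ Y → t ∈ c.1 ∩ X := fun t ht =>
        Finset.mem_inter.2 ⟨(Finset.mem_inter.1 ht).1, hYX (Finset.mem_inter.1 ht).2⟩
      have e2 : ∀ t, t ∈ c.2 ∩ (X \ Y) → t ∈ c.2 ∩ X := fun t ht =>
        Finset.mem_inter.2 ⟨(Finset.mem_inter.1 ht).1,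
          (Finset.mem_sdiff.1 (Finset.mem_inter.1 ht).2).1⟩
      exact hT c.1 hc.1 c.2 hc.2 x (e1 x hx) y (e1 y hy) p (e2 p hp) q (e2 q hq) hxy
        (hlt y hy p hp) hpq)
    have hMat : Mat cr xx X O M := ⟨hM, fun e he =>
      ⟨hYX (Finset.mem_inter.1 (hMi e he).1).2,
        (Finset.mem_sdiff.1 (Finset.mem_inter.1 (hMi e he).2.1).2).1⟩,
      fun e he z hz => (hMi e he).2.2 z hz⟩
    have hMle := (pl_spec cr xx X O).2 M hMat
    refine ⟨M.image Prod.fst ∪ M.image Prod.snd, fun _ => ⟨?_, ?_⟩⟩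
    · have h1 := Finset.card_union_le (M.image Prod.fst) (M.image Prod.snd)
      have h3 : (M.image Prod.fst).card ≤ M.card := Finset.card_image_le
      have h4 : (M.image Prod.snd).card ≤ M.card := Finset.card_image_le
      omega
    · intro x hx p hp hL
      obtain ⟨e, he, h | h⟩ := hMc x hx p hp hL
      · exact Or.inl (Finset.mem_union_left _ (Finset.mem_image.2 ⟨e, he, h⟩))
      · exact Or.inr (Finset.mem_union_right _ (Finset.mem_image.2 ⟨e, he, h⟩))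
  choose V hV using hV
  set D0 := (𝒮 ×ˢ 𝒮).biUnion V with hD0
  have hD0c : D0.card ≤ (𝒮 ×ˢ 𝒮).card * (2 * pl cr xx X O) :=
    Finset.card_biUnion_le_card_mul _ _ _ fun c hc => (hV c hc).1
  rw [Finset.card_product] at hD0c
  have hmem : ∀ x, ∀ c ∈ 𝒮 ×ˢ 𝒮, x ∈ V c → x ∈ D0 := fun x c hc hx =>
    Finset.mem_biUnion.2 ⟨c, hc, hx⟩
  have hcross : ∀ x ∈ Y \ D0, ∀ p ∈ (X \ Y) \ D0, ¬ Lo cr O x p := by
    intro x hx p hp hL
    rw [Finset.mem_sdiff] at hx hp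
    obtain ⟨C, hC, hxC⟩ := hX x (hYX hx.1)
    obtain ⟨D, hD, hpD⟩ := hX p (Finset.mem_sdiff.1 hp.1).1
    have hc : (C, D) ∈ 𝒮 ×ˢ 𝒮 := Finset.mem_product.2 ⟨hC, hD⟩
    rcases (hV (C, D) hc).2 x (Finset.mem_inter.2 ⟨hxC, hx.1⟩) p
      (Finset.mem_inter.2 ⟨hpD, hp.1⟩) hL with h | h
    · exact hx.2 (hmem x _ hc h)
    · exact hp.2 (hmem p _ hc h)
  have hsub : Y \ D0 ∪ (X \ Y) \ D0 ⊆ X := Finset.union_subset
    (Finset.sdiff_subset.trans hYX) (Finset.sdiff_subset.trans Finset.sdiff_subset)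
  have hadd := pl_add hF O (Y \ D0) ((X \ Y) \ D0)
    (fun x hx p hp => hYl x (Finset.mem_sdiff.1 hx).1 p (Finset.mem_sdiff.1 hp).1)
    (fun o ho => cc2_out hsub (hO o ho)) hcross
  have hmono := pl_mono cr xx O hsub
  have key : ∀ W ⊆ X, W.card < n → ∃ D ⊆ W, D.card ≤
      2 * 𝒮.card ^ 2 * Nat.clog 2 W.card * pl cr xx W O ∧
      ∀ x ∈ W \ D, ∀ y ∈ W \ D, x < y → ¬ Lo cr O x y := by
    intro W hW hWc
    refine ih W.card hWc W (fun o ho => cc2_out hW (hO o ho)) (fun x hx => hX x (hW hx)) ?_ rfl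
    intro C hC D hD x hx y hy p hp q hq
    have e : ∀ (C : Finset α) t, t ∈ C ∩ W → t ∈ C ∩ X := fun C t ht =>
      Finset.mem_inter.2 ⟨(Finset.mem_inter.1 ht).1, hW (Finset.mem_inter.1 ht).2⟩
    exact hT C hC D hD x (e C x hx) y (e C y hy) p (e D p hp) q (e D q hq)
  have c1 : (Y \ D0).card ≤ (n + 1) / 2 := (Finset.card_le_card Finset.sdiff_subset).trans hYc.le
  have c2 : ((X \ Y) \ D0).card ≤ (n + 1) / 2 := by
    have := Finset.card_le_card (Finset.sdiff_subset : (X \ Y) \ D0 ⊆ X \ Y)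
    omega
  obtain ⟨D1, hD1, hD1c, hD1n⟩ := key (Y \ D0) (Finset.sdiff_subset.trans hYX) (by omega)
  obtain ⟨D2, hD2, hD2c, hD2n⟩ := key ((X \ Y) \ D0)
    (Finset.sdiff_subset.trans Finset.sdiff_subset) (by omega)
  refine ⟨D0 ∩ X ∪ D1 ∪ D2, ?_, ?_, ?_⟩
  · exact Finset.union_subset (Finset.union_subset Finset.inter_subset_right
      (hD1.trans (Finset.sdiff_subset.trans hYX)))
      (hD2.trans (Finset.sdiff_subset.trans Finset.sdiff_subset))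
  · have hcl : Nat.clog 2 n = Nat.clog 2 ((n + 1) / 2) + 1 := by
      have := Nat.clog_of_two_le (b := 2) (n := n) (by norm_num) h2
      simpa using this
    have l1 : Nat.clog 2 (Y \ D0).card ≤ Nat.clog 2 ((n + 1) / 2) := Nat.clog_mono_right 2 c1
    have l2 : Nat.clog 2 ((X \ Y) \ D0).card ≤ Nat.clog 2 ((n + 1) / 2) := Nat.clog_mono_right 2 c2
    have u1 := Finset.card_union_le (D0 ∩ X ∪ D1) D2
    have u2 := Finset.card_union_le (D0 ∩ X) D1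
    have u3 : (D0 ∩ X).card ≤ D0.card := Finset.card_le_card Finset.inter_subset_left
    rw [hcl]
    set c := Nat.clog 2 ((n + 1) / 2)
    set k := 𝒮.card
    have v1 : D1.card ≤ 2 * k ^ 2 * c * pl cr xx (Y \ D0) O :=
      hD1c.trans (Nat.mul_le_mul_right _ (Nat.mul_le_mul_left _ l1))
    have v2 : D2.card ≤ 2 * k ^ 2 * c * pl cr xx ((X \ Y) \ D0) O :=
      hD2c.trans (Nat.mul_le_mul_right _ (Nat.mul_le_mul_left _ l2))
    calc (D0 ∩ X ∪ D1 ∪ D2).card ≤ D0.card + D1.card + D2.card := by omega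
      _ ≤ k * k * (2 * pl cr xx X O) + 2 * k ^ 2 * c * pl cr xx (Y \ D0) O +
          2 * k ^ 2 * c * pl cr xx ((X \ Y) \ D0) O := by omega
      _ = k * k * (2 * pl cr xx X O) + 2 * k ^ 2 * c * (pl cr xx (Y \ D0) O +
          pl cr xx ((X \ Y) \ D0) O) := by ring
      _ ≤ k * k * (2 * pl cr xx X O) + 2 * k ^ 2 * c * pl cr xx X O :=
          Nat.add_le_add_left (Nat.mul_le_mul_left _ (hadd.trans hmono)) _
      _ = 2 * k ^ 2 * (c + 1) * pl cr xx X O := by ring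
  · intro x hx y hy hxy
    rw [Finset.mem_sdiff, Finset.mem_union, Finset.mem_union, Finset.mem_inter, not_or, not_or]
      at hx hy
    obtain ⟨hxX, ⟨hx0, hx1⟩, hx2⟩ := hx
    obtain ⟨hyX, ⟨hy0, hy1⟩, hy2⟩ := hy
    have hx0' : x ∉ D0 := fun h => hx0 ⟨h, hxX⟩
    have hy0' : y ∉ D0 := fun h => hy0 ⟨h, hyX⟩
    by_cases hxY : x ∈ Y <;> by_cases hyY : y ∈ Y
    · exact hD1n x (Finset.mem_sdiff.2 ⟨Finset.mem_sdiff.2 ⟨hxY, hx0'⟩, hx1⟩) y
        (Finset.mem_sdiff.2 ⟨Finset.mem_sdiff.2 ⟨hyY, hy0'⟩, hy1⟩) hxy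
    · exact hcross x (Finset.mem_sdiff.2 ⟨hxY, hx0'⟩) y
        (Finset.mem_sdiff.2 ⟨Finset.mem_sdiff.2 ⟨hyX, hyY⟩, hy0'⟩)
    · exact absurd (hYl y hyY x (Finset.mem_sdiff.2 ⟨hxX, hxY⟩)) hxy.not_gt
    · exact hD2n x (Finset.mem_sdiff.2 ⟨Finset.mem_sdiff.2 ⟨Finset.mem_sdiff.2 ⟨hxX, hxY⟩, hx0'⟩, hx2⟩)
        y (Finset.mem_sdiff.2 ⟨Finset.mem_sdiff.2 ⟨Finset.mem_sdiff.2 ⟨hyX, hyY⟩, hy0'⟩, hy2⟩) hxy

end H63P
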