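import Pool.Agent.Lib.H63P.FC

/-! # H63P, chunk CD: an NL-clique is the union of few chains

PROOF. Let `low b := ∀ x ∈ X, b < x` and `key b := toLex (decide (low b), b) : Bool ×ₗ α` (classical
decidability): first the rays above `X`, then the rays below `X`. `key` is injective. From `FC.n1`:
(N) for `i < j ≤ k < l` in `X`, `o, o' ∈ B`, `cr i j o`, `¬ cr k l o`, `cr k l o'`, `¬ cr i j o'`:
`key o' < key o`. (The hypothesis for `j < k`: `¬ Lo cr B j k` gives a ray `w ∈ B` crossing `jk`, outside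
by `hO`. `Aft i l o' o` gives `key o' < key o`: `l < o'` means `o'` is above `X`, i.e. not low; `o < i` means low.)
CLAIM by induction on `n`: for every `Y ⊆ X` and `o ∈ B` such that `{b ∈ B : key b ≤ key o}.card ≤ n` and
(H) for all `x < y` in `Y` with `¬ cr x y o` every `b ∈ B` with `cr x y b` has `key b < key o`,
`Y` is covered by at most `n` chains `(C, r)`, `C ⊆ Y`, `r ∈ B`.
Proof of the claim: if `Y` is an `o`-chain, one chain (`n ≥ 1` because `o` is in the set). Otherwise let
`Y1` be the largest initial part `Y.filter (· < s)`, `s ∈ Y`, which is an `r`-chain for some `r ∈ B` and such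
that `Y.filter (· ≤ s)` is not an `o`-chain. Simplest: let `s` = the least `s ∈ Y` such that
`Y.filter (· ≤ s)` is not an `o`-chain (exists, take the maximum of `Y`); then `Y1 := Y.filter (· < s)` is an
`o`-chain (if `x < y` in `Y1`, then `Y.filter (· ≤ y)` is an `o`-chain by minimality). There are `x < y ≤ s` in `Y`
with `¬ cr x y o` (use `FC.symm`). By NL and (H) the set of `b ∈ B` with `cr x y b` is nonempty and consists of rays
with `key b < key o`; let `o1` be the one with the largest key. `Y2 := Y.filter (s ≤ ·)`. (H) holds for `Y2`,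
`o1`: let `k < l` in `Y2`, `¬ cr k l o1`, `cr k l b`, `b ∈ B`. If `cr x y b`: `key b ≤ key o1`, `b ≠ o1`, so
`key b < key o1`. If `¬ cr x y b`: (N) with `i = x`, `j = y ≤ s ≤ k`, `l`, `o = o1`, `o' = b`: `key b < key o1`.
`{b : key b ≤ key o1}` is a proper subset of `{b : key b ≤ key o}` (`o` is missing), so its card is `≤ n - 1`;
by induction `Y2` is covered by `n - 1` chains, together with `(Y1, o)` at most `n`.
The theorem: `o` := the ray of `B` with the largest key ((H): `b ≠ o` because `¬ cr x y o`), `n = B.card`. -/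

open Finset H38P

namespace H63P

variable {α : Type} [LinearOrder α] [Fintype α]

open Classical in
theorem cd_ind {β : Type} [LinearOrder β] (cr : α → α → α → Prop) (B X : Finset α) (key : α → β)
    (hinj : ∀ a b, key a = key b → a = b) (hsymm : ∀ x y z, cr x y z → cr y x z)
    (hNL : ∀ x ∈ X, ∀ y ∈ X, x < y → ∃ b ∈ B, cr x y b)
    (hN : ∀ i ∈ X, ∀ j ∈ X, ∀ k ∈ X, ∀ l ∈ X, i < j → j ≤ k → k < l → ∀ o ∈ B, ∀ o' ∈ B,
      cr i j o → ¬ cr k l o → cr k l o' → ¬ cr i j o' → key o' < key o) :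
    ∀ n : ℕ, ∀ Y ⊆ X, ∀ o ∈ B, (B.filter (fun b => key b ≤ key o)).card ≤ n →
      (∀ x ∈ Y, ∀ y ∈ Y, x < y → ¬ cr x y o → ∀ b ∈ B, cr x y b → key b < key o) →
      ∃ S : Finset (Finset α × α), S.card ≤ n ∧ (∀ x ∈ Y, ∃ c ∈ S, x ∈ c.1) ∧
        ∀ c ∈ S, c.2 ∈ B ∧ c.1 ⊆ Y ∧ Chain cr c.1 c.2 := by
  intro n
  induction n with
  | zero =>
    intro Y _ o ho hc _
    exfalso
    have h1 : o ∈ B.filter (fun b => key b ≤ key o) := Finset.mem_filter.2 ⟨ho, le_refl _⟩
    rw [Finset.card_eq_zero.1 (Nat.le_zero.1 hc)] at h1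
    exact absurd h1 (Finset.notMem_empty _)
  | succ n ih =>
    intro Y hY o ho hc H
    by_cases hch : Chain cr Y o
    · refine ⟨{(Y, o)}, by simp, fun x hx => ⟨(Y, o), by simp, hx⟩, ?_⟩
      intro c hc
      rw [Finset.mem_singleton] at hc
      subst hc
      exact ⟨ho, Finset.Subset.refl _, hch⟩
    set W := Y.filter (fun s => ¬ Chain cr (Y.filter (fun t => t ≤ s)) o) with hW
    have hYne : Y.Nonempty := by
      rcases Y.eq_empty_or_nonempty with h | h
      · exact absurd (by rw [h]; intro x hx; exact absurd hx (Finset.notMem_empty _)) hch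
      · exact h
    have hWne : W.Nonempty := by
      refine ⟨Y.max' hYne, Finset.mem_filter.2 ⟨Finset.max'_mem _ _, ?_⟩⟩
      have h1 : Y.filter (fun t => t ≤ Y.max' hYne) = Y :=
        Finset.filter_true_of_mem fun t ht => Finset.le_max' _ _ ht
      rw [h1]
      exact hch
    set s := W.min' hWne with hs
    have hsW := Finset.mem_filter.1 (Finset.min'_mem W hWne)
    have hsY : s ∈ Y := hsW.1
    have hmin : ∀ t ∈ Y, t < s → Chain cr (Y.filter (fun u => u ≤ t)) o := by
      intro t ht hts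
      by_contra h
      exact absurd (Finset.min'_le W t (Finset.mem_filter.2 ⟨ht, h⟩)) hts.not_ge
    have hY1 : Chain cr (Y.filter (fun t => t < s)) o := by
      intro x hx y hy hxy
      rw [Finset.mem_filter] at hx hy
      rcases lt_or_gt_of_ne hxy with h | h
      · exact hmin y hy.1 hy.2 x (Finset.mem_filter.2 ⟨hx.1, h.le⟩) y
          (Finset.mem_filter.2 ⟨hy.1, le_refl _⟩) hxy
      · exact hmin x hx.1 hx.2 x (Finset.mem_filter.2 ⟨hx.1, le_refl _⟩) y
          (Finset.mem_filter.2 ⟨hy.1, h.le⟩) hxy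
    obtain ⟨x, hx, y, hy, hxy, hys, hno⟩ : ∃ x ∈ Y, ∃ y ∈ Y, x < y ∧ y ≤ s ∧ ¬ cr x y o := by
      by_contra hcon
      push Not at hcon
      apply hsW.2
      intro x hx y hy hxy
      rw [Finset.mem_filter] at hx hy
      rcases lt_or_gt_of_ne hxy with h | h
      · exact hcon x hx.1 y hy.1 h hy.2
      · exact hsymm _ _ _ (hcon y hy.1 x hx.1 h hx.2)
    have hTne : (B.filter (fun b => cr x y b)).Nonempty := by
      obtain ⟨b, hb, hcb⟩ := hNL x (hY hx) y (hY hy) hxy
      exact ⟨b, Finset.mem_filter.2 ⟨hb, hcb⟩⟩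
    obtain ⟨o1, ho1, hmax⟩ := Finset.exists_max_image _ key hTne
    rw [Finset.mem_filter] at ho1
    have hlt : key o1 < key o := H x hx y hy hxy hno o1 ho1.1 ho1.2
    obtain ⟨S, hSc, hScov, hSp⟩ := ih (Y.filter (fun t => s ≤ t))
      ((Finset.filter_subset _ _).trans hY) o1 ho1.1 (by
        have h1 : B.filter (fun b => key b ≤ key o1) ⊆
            (B.filter (fun b => key b ≤ key o)).erase o := by
          intro b hb
          rw [Finset.mem_filter] at hb
          rw [Finset.mem_erase, Finset.mem_filter]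
          refine ⟨?_, hb.1, hb.2.trans hlt.le⟩
          rintro rfl
          exact absurd hb.2 hlt.not_ge
        have h3 : o ∈ B.filter (fun b => key b ≤ key o) :=
          Finset.mem_filter.2 ⟨ho, le_refl (key o)⟩
        have h2 := Finset.card_le_card h1
        rw [Finset.card_erase_of_mem h3] at h2
        omega) (by
        intro k hk l hl hkl hnk b hb hcb
        rw [Finset.mem_filter] at hk hl
        by_cases hb' : cr x y b
        · refine lt_of_le_of_ne (hmax b (Finset.mem_filter.2 ⟨hb, hb'⟩)) ?_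
          intro he
          rw [hinj _ _ he] at hcb
          exact hnk hcb
        · exact hN x (hY hx) y (hY hy) k (hY hk.1) l (hY hl.1) hxy (hys.trans hk.2) hkl o1 ho1.1
            b hb ho1.2 hnk hcb hb')
    refine ⟨insert (Y.filter (fun t => t < s), o) S, ?_, ?_, ?_⟩
    · exact (Finset.card_insert_le _ _).trans (Nat.add_le_add_right hSc 1)
    · intro t ht
      rcases lt_or_ge t s with h | h
      · exact ⟨_, Finset.mem_insert_self _ _, Finset.mem_filter.2 ⟨ht, h⟩⟩
      · obtain ⟨c, hc, htc⟩ := hScov t (Finset.mem_filter.2 ⟨ht, h⟩)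
        exact ⟨c, Finset.mem_insert_of_mem hc, htc⟩
    · intro c hc
      rcases Finset.mem_insert.1 hc with rfl | hc
      · exact ⟨ho, Finset.filter_subset _ _, hY1⟩
      · obtain ⟨h1, h2, h3⟩ := hSp c hc
        exact ⟨h1, h2.trans (Finset.filter_subset _ _), h3⟩

theorem tsplit {cr : α → α → α → Prop} {xx : α → α → α → α → Prop} (hF : FC cr xx) (B X : Finset α)
    (hB : B.Nonempty) (hO : ∀ o ∈ B, Out X o)
    (hNL : ∀ x ∈ X, ∀ y ∈ X, x < y → ¬ Lo cr B x y) :
    ∃ S : Finset (Finset α × α), S.card ≤ B.card ∧ (∀ x ∈ X, ∃ c ∈ S, x ∈ c.1) ∧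
      ∀ c ∈ S, c.2 ∈ B ∧ c.1 ⊆ X ∧ Chain cr c.1 c.2 := by
  classical
  set key : α → Bool ×ₗ α := fun b => toLex (decide (∀ x ∈ X, b < x), b) with hkey
  have hinj : ∀ a b, key a = key b → a = b := by
    intro a b h
    have h1 := congrArg (fun t => (ofLex t).2) h
    exact h1
  have hNL' : ∀ x ∈ X, ∀ y ∈ X, x < y → ∃ b ∈ B, cr x y b := by
    intro x hx y hy hxy
    have h1 := hNL x hx y hy hxy
    unfold Lo at h1
    push Not at h1
    exact h1
  have hout : ∀ i ∈ X, ∀ l ∈ X, ∀ o ∈ B, o < i ∨ l < o := by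
    intro i hi l hl o ho
    rcases hO o ho with h | h
    · exact Or.inl (h i hi)
    · exact Or.inr (h l hl)
  have hlow1 : ∀ i ∈ X, ∀ o ∈ B, o < i → decide (∀ x ∈ X, o < x) = true := by
    intro i hi o ho h
    rw [decide_eq_true_iff]
    rcases hO o ho with h1 | h1
    · exact h1
    · exact absurd (h1 i hi) h.not_gt
  have hlow2 : ∀ l ∈ X, ∀ o, l < o → decide (∀ x ∈ X, o < x) = false := by
    intro l hl o h
    rw [decide_eq_false_iff_not]
    intro h1
    exact absurd (h1 l hl) h.not_gt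
  have hN : ∀ i ∈ X, ∀ j ∈ X, ∀ k ∈ X, ∀ l ∈ X, i < j → j ≤ k → k < l → ∀ o ∈ B, ∀ o' ∈ B,
      cr i j o → ¬ cr k l o → cr k l o' → ¬ cr i j o' → key o' < key o := by
    intro i hi j hj k hk l hl hij hjk hkl o ho o' ho' h1 h2 h3 h4
    have h5 : j = k ∨ ∃ w, (w < i ∨ l < w) ∧ cr j k w := by
      rcases hjk.eq_or_lt with h | h
      · exact Or.inl h
      · obtain ⟨w, hw, hc⟩ := hNL' j hj k hk h
        exact Or.inr ⟨w, hout i hi l hl w hw, hc⟩
    have h6 := hF.n1 i j k l o o' hij hjk hkl (hout i hi l hl o ho) (hout i hi l hl o' ho') h5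
      h1 h2 h3 h4
    rw [hkey]
    simp only [Prod.Lex.toLex_lt_toLex]
    rcases h6 with ⟨h7, h8⟩ | ⟨h7, h8 | h8⟩
    · left
      rw [hlow2 l hl o' h7, hlow1 i hi o ho h8]
      decide
    · right
      rw [hlow2 l hl o' h8, hlow2 l hl o (h8.trans h7)]
      exact ⟨rfl, h7⟩
    · right
      rw [hlow1 i hi o' ho' (h7.trans h8), hlow1 i hi o ho h8]
      exact ⟨rfl, h7⟩
  obtain ⟨o, ho, hmax⟩ := Finset.exists_max_image B key hB
  exact cd_ind cr B X key hinj hF.symm hNL' hN B.card X (Finset.Subset.refl _) o ho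
    (Finset.card_filter_le _ _) (by
      intro x hx y hy hxy hno b hb hcb
      refine lt_of_le_of_ne (hmax b hb) ?_
      intro he
      rw [hinj _ _ he] at hcb
      exact hno hcb)

end H63P
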