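import Pool.Agent.Lib.H63P.CC2

/-! # H63P, chunk CE1: growing one chain -/

open Finset H38P

namespace H63P

variable {α : Type} [LinearOrder α] [Fintype α]

/-- PROOF. `gml` with `𝒮 = {C}` (card 1, `1 ^ 2 = 1`): `Top` for `x < y < p < q` in `C` from `FC.grow` (`Out C r` gives
`r < x ∨ q < r`; all six pairs cross `r` by `Chain`; `hO` gives the condition on `O`). -/
theorem grow1 {cr : α → α → α → Prop} {xx : α → α → α → α → Prop} (hF : FC cr xx) (O C : Finset α)
    (r : α) (hO : ∀ o ∈ O, Out C o) (hr : Out C r) (hC : Chain cr C r) :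
    ∃ D ⊆ C, D.card ≤ 2 * Nat.clog 2 C.card * pl cr xx C O ∧
      ∀ x ∈ C \ D, ∀ y ∈ C \ D, x < y → ¬ Lo cr O x y := by
  classical
  obtain ⟨D, h1, h2, h3⟩ := gml hF O {C} C hO (fun x hx => ⟨C, Finset.mem_singleton_self C, hx⟩) (by
    intro C1 hC1 C2 hC2 x hx y hy p hp q hq hxy hyp hpq
    rw [Finset.mem_singleton] at hC1 hC2
    subst hC1
    subst hC2
    rw [Finset.inter_self] at hx hy hp hq
    have hr' : r < x ∨ q < r := by
      rcases hr with h | h
      · exact Or.inl (h x hx)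
      · exact Or.inr (h q hq)
    exact hF.grow O x y p q r hxy hyp hpq (fun o ho => by
      rcases hO o ho with h | h
      · exact Or.inl (h x hx)
      · exact Or.inr (h q hq)) hr' (hC x hx y hy hxy.ne) (hC x hx p hp (hxy.trans hyp).ne)
      (hC x hx q hq (hxy.trans (hyp.trans hpq)).ne) (hC y hy p hp hyp.ne)
      (hC y hy q hq (hyp.trans hpq).ne) (hC p hp q hq hpq.ne))
  refine ⟨D, h1, ?_, h3⟩
  rw [Finset.card_singleton, one_pow, mul_one] at h2
  exact h2

end H63P
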