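import Pool.Agent.Lib.H63P.CC2

/-! # H63P, chunk CE2: merging the chains of one ray -/

open Finset H38P

namespace H63P

variable {α : Type} [LinearOrder α] [Fintype α]

/-- PROOF. `gml` for `X := 𝒮.sup id` (or `𝒮.biUnion id`): `Top` for `x < y` in `C`, `p < q` in `D`, `y < p` from `FC.merge`
(`r ∈ O`, `cr x y r`, `cr p q r` by `Chain`). -/
theorem merge1 {cr : α → α → α → Prop} {xx : α → α → α → α → Prop} (hF : FC cr xx) (O : Finset α)
    (r : α) (hr : r ∈ O) (𝒮 : Finset (Finset α)) (hO : ∀ o ∈ O, Out (𝒮.biUnion id) o)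
    (hC : ∀ C ∈ 𝒮, Chain cr C r) :
    ∃ D ⊆ 𝒮.biUnion id, D.card ≤ 2 * 𝒮.card ^ 2 * Nat.clog 2 (𝒮.biUnion id).card *
      pl cr xx (𝒮.biUnion id) O ∧
      ∀ x ∈ 𝒮.biUnion id \ D, ∀ y ∈ 𝒮.biUnion id \ D, x < y → ¬ Lo cr O x y := by
  refine gml hF O 𝒮 (𝒮.biUnion id) hO ?_ ?_
  · intro x hx
    obtain ⟨C, hC1, hC2⟩ := mem_biUnion.1 hx
    exact ⟨C, hC1, hC2⟩
  · intro C hC1 D hD1 x hx y hy p hp q hq hxy hyp hpq
    have hx' := mem_inter.1 hx
    have hy' := mem_inter.1 hy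
    have hp' := mem_inter.1 hp
    have hq' := mem_inter.1 hq
    refine hF.merge O x y p q r hxy hyp hpq ?_ hr (hC C hC1 x hx'.1 y hy'.1 hxy.ne)
      (hC D hD1 p hp'.1 q hq'.1 hpq.ne)
    intro o ho
    rcases hO o ho with h | h
    · exact Or.inl (h x hx'.2)
    · exact Or.inr (h q hq'.2)

end H63P
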