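import Pool.Agent.Lib.H63P.CE1
import Pool.Agent.Lib.H63P.CE2
import Pool.Agent.Lib.H63P.CD

/-! # H63P, chunk CF1: `gm` for nonempty `B` -/

open Finset H38P

namespace H63P

variable {α : Type} [LinearOrder α] [Fintype α]

/-- PROOF. Let `S` be the cover of `X` from `hX` (`≤ K` pairs `(C, r)`); replace `C` by `C ∩ X` (still a chain, still
`Out`). For each `c ∈ S` apply `grow1` with `O = B` to `C ∩ X`: `D_c`, `D_c.card ≤ 2 β pl` (`pl cr xx (C ∩ X) B ≤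
pl cr xx I B` by monotonicity: a `Mat` inside a smaller set is a `Mat` inside `I`, `pl_spec`; `Nat.clog 2 _ ≤ β`
because the card is `≤ 2 ^ β`: `Nat.clog_le_of_le_pow`), and `tsplit` to `C ∩ X \ D_c`: at most `B.card ≤ R` chains
with rays in `B`. Let `S1` be the union (`biUnion`) of these families: `S1.card ≤ K * R`. For `r ∈ B` let
`𝒮_r = (S1.filter (c.2 = r)).image Prod.fst`, `X_r = 𝒮_r.biUnion id`; `merge1` gives `E_r`,
`E_r.card ≤ 2 (S1.filter ..).card ^ 2 β pl`, and `tsplit` covers `X_r \ E_r` by `≤ B.card` chains with rays in `B`.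
Let `S2` be the union over `r ∈ B`: `S2.card ≤ B.card * B.card ≤ R ^ 2`. Let
`X' = X \ (⋃ D_c ∪ ⋃ E_r)`. Every `x ∈ X'` is in some `C ∩ X \ D_c`, hence in some `c1 ∈ S1`, hence in
`X_r \ E_r` with `r = c1.2`, hence in some `c2 ∈ S2`. `Out`: sets are inside `X ⊆ I` and rays are in `B`.
Card: `∑_c 2 β pl ≤ 2 K β pl`; `∑_r 2 n_r² β pl ≤ 2 (∑ n_r)² β pl ≤ 2 (K R)² β pl` (`∑ n_r² ≤ (∑ n_r)²`,
`∑_r n_r ≤ S1.card`). Take `M` attaining `pl cr xx I B`. -/
theorem gm1 {cr : α → α → α → Prop} {xx : α → α → α → α → Prop} (hF : FC cr xx) (K R β : ℕ)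
    (hβ : Fintype.card α ≤ 2 ^ β) (I B X : Finset α) (hB : B.Nonempty) (hO : ∀ z ∈ B, Out I z)
    (hR : B.card ≤ R) (hXI : X ⊆ I) (hX : Cov cr K X) :
    ∃ X' ⊆ X, Cov cr (R ^ 2) X' ∧ ∃ M, Mat cr xx I B M ∧
      X.card ≤ X'.card + (2 * K + 2 * (K * R) ^ 2) * β * M.card := by
  classical
  obtain ⟨S, hSK, hScov, hSp⟩ := hX
  obtain ⟨⟨M, hM, hMc⟩, -⟩ := pl_spec cr xx I B
  have hclog : ∀ Y : Finset α, Nat.clog 2 Y.card ≤ β := fun Y =>
    Nat.clog_le_of_le_pow ((Finset.card_le_univ Y).trans hβ)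
  have hOX : ∀ Y ⊆ X, ∀ z ∈ B, Out Y z := fun Y hY z hz => cc2_out (hY.trans hXI) (hO z hz)
  have hpl : ∀ Y ⊆ X, pl cr xx Y B ≤ M.card := fun Y hY => by
    rw [hMc]
    exact pl_mono cr xx B (hY.trans hXI)
  have key1 : ∀ c : Finset α × α, ∃ (D : Finset α) (Sc : Finset (Finset α × α)), c ∈ S →
      D.card ≤ 2 * β * M.card ∧ Sc.card ≤ B.card ∧
      (∀ x ∈ (c.1 ∩ X) \ D, ∃ c' ∈ Sc, x ∈ c'.1) ∧
      ∀ c' ∈ Sc, c'.2 ∈ B ∧ c'.1 ⊆ X ∧ Chain cr c'.1 c'.2 := by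
    intro c
    by_cases hc : c ∈ S
    swap
    · exact ⟨∅, ∅, fun h => absurd h hc⟩
    obtain ⟨h1, h2⟩ := hSp c hc
    obtain ⟨D, hD, hDc, hDn⟩ := grow1 hF B (c.1 ∩ X) c.2
      (hOX _ Finset.inter_subset_right) (cc2_out Finset.inter_subset_left h1)
      (fun x hx y hy hxy => h2 x (Finset.mem_inter.1 hx).1 y (Finset.mem_inter.1 hy).1 hxy)
    obtain ⟨Sc, hS1, hS2, hS3⟩ := tsplit hF B ((c.1 ∩ X) \ D) hB
      (hOX _ (Finset.sdiff_subset.trans Finset.inter_subset_right)) hDn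
    refine ⟨D, Sc, fun _ => ⟨?_, hS1, hS2, ?_⟩⟩
    · refine hDc.trans ?_
      exact Nat.mul_le_mul (Nat.mul_le_mul_left _ (hclog _)) (hpl _ Finset.inter_subset_right)
    · intro c' hc'
      obtain ⟨h3, h4, h5⟩ := hS3 c' hc'
      exact ⟨h3, h4.trans (Finset.sdiff_subset.trans Finset.inter_subset_right), h5⟩
  choose Dc Sc hDS using key1
  set S1 := S.biUnion Sc with hS1
  have hS1c : S1.card ≤ K * R := by
    have h1 : S1.card ≤ S.card * B.card :=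
      Finset.card_biUnion_le_card_mul _ _ _ fun c hc => (hDS c hc).2.1
    exact h1.trans (Nat.mul_le_mul hSK hR)
  have hS1p : ∀ c ∈ S1, c.2 ∈ B ∧ c.1 ⊆ X ∧ Chain cr c.1 c.2 := by
    intro c hc
    obtain ⟨c0, hc0, hc1⟩ := Finset.mem_biUnion.1 hc
    exact (hDS c0 hc0).2.2.2 c hc1
  have key2 : ∀ r : α, ∃ (E : Finset α) (T : Finset (Finset α × α)), r ∈ B →
      E.card ≤ 2 * (S1.filter (fun c => c.2 = r)).card ^ 2 * β * M.card ∧ T.card ≤ B.card ∧
      (∀ x ∈ (((S1.filter (fun c => c.2 = r)).image Prod.fst).biUnion id) \ E, ∃ c' ∈ T, x ∈ c'.1) ∧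
      ∀ c' ∈ T, c'.2 ∈ B ∧ c'.1 ⊆ X ∧ Chain cr c'.1 c'.2 := by
    intro r
    by_cases hr : r ∈ B
    swap
    · exact ⟨∅, ∅, fun h => absurd h hr⟩
    set 𝒮 := (S1.filter (fun c => c.2 = r)).image Prod.fst with h𝒮
    have hsub : 𝒮.biUnion id ⊆ X := by
      intro x hx
      obtain ⟨C, hC, hxC⟩ := Finset.mem_biUnion.1 hx
      obtain ⟨c, hc, rfl⟩ := Finset.mem_image.1 hC
      exact (hS1p c (Finset.mem_filter.1 hc).1).2.1 hxC
    obtain ⟨E, hE, hEc, hEn⟩ := merge1 hF B r hr 𝒮 (hOX _ hsub) (by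
      intro C hC
      obtain ⟨c, hc, rfl⟩ := Finset.mem_image.1 hC
      rw [Finset.mem_filter] at hc
      have h1 := (hS1p c hc.1).2.2
      rw [hc.2] at h1
      exact h1)
    obtain ⟨T, hT1, hT2, hT3⟩ := tsplit hF B (𝒮.biUnion id \ E) hB
      (hOX _ (Finset.sdiff_subset.trans hsub)) hEn
    refine ⟨E, T, fun _ => ⟨?_, hT1, hT2, ?_⟩⟩
    · have h1 : 𝒮.card ≤ (S1.filter (fun c => c.2 = r)).card := Finset.card_image_le
      refine hEc.trans ?_
      exact Nat.mul_le_mul (Nat.mul_le_mul (Nat.mul_le_mul_left _ (Nat.pow_le_pow_left h1 2))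
        (hclog _)) (hpl _ hsub)
    · intro c' hc'
      obtain ⟨h3, h4, h5⟩ := hT3 c' hc'
      exact ⟨h3, h4.trans (Finset.sdiff_subset.trans hsub), h5⟩
  choose E T hET using key2
  refine ⟨X \ (S.biUnion Dc ∪ B.biUnion E), Finset.sdiff_subset, ⟨B.biUnion T, ?_, ?_, ?_⟩, M, hM, ?_⟩
  · have h1 : (B.biUnion T).card ≤ B.card * B.card :=
      Finset.card_biUnion_le_card_mul _ _ _ fun r hr => (hET r hr).2.1
    rw [sq]
    exact h1.trans (Nat.mul_le_mul hR hR)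
  · intro x hx
    rw [Finset.mem_sdiff, Finset.mem_union, not_or] at hx
    obtain ⟨hxX, hx1, hx2⟩ := hx
    obtain ⟨c, hc, hxc⟩ := hScov x hxX
    have hxD : x ∉ Dc c := fun h => hx1 (Finset.mem_biUnion.2 ⟨c, hc, h⟩)
    obtain ⟨c', hc', hxc'⟩ := (hDS c hc).2.2.1 x
      (Finset.mem_sdiff.2 ⟨Finset.mem_inter.2 ⟨hxc, hxX⟩, hxD⟩)
    have hc'1 : c' ∈ S1 := Finset.mem_biUnion.2 ⟨c, hc, hc'⟩
    have hr : c'.2 ∈ B := (hS1p c' hc'1).1
    have hxE : x ∉ E c'.2 := fun h => hx2 (Finset.mem_biUnion.2 ⟨c'.2, hr, h⟩)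
    have hmem : c'.1 ∈ (S1.filter (fun c => c.2 = c'.2)).image Prod.fst :=
      Finset.mem_image.2 ⟨c', Finset.mem_filter.2 ⟨hc'1, rfl⟩, rfl⟩
    obtain ⟨c'', hc'', hxc''⟩ := (hET c'.2 hr).2.2.1 x
      (Finset.mem_sdiff.2 ⟨Finset.mem_biUnion.2 ⟨c'.1, hmem, hxc'⟩, hxE⟩)
    exact ⟨c'', Finset.mem_biUnion.2 ⟨c'.2, hr, hc''⟩, hxc''⟩
  · intro c hc
    obtain ⟨r, hr, hcr⟩ := Finset.mem_biUnion.1 hc
    obtain ⟨h1, h2, h3⟩ := (hET r hr).2.2.2 c hcr
    exact ⟨hOX _ h2 _ h1, h3⟩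
  · have u1 : X.card ≤ (X \ (S.biUnion Dc ∪ B.biUnion E)).card +
        (S.biUnion Dc ∪ B.biUnion E).card := by
      have := Finset.le_card_sdiff (S.biUnion Dc ∪ B.biUnion E) X
      omega
    have u2 : (S.biUnion Dc ∪ B.biUnion E).card ≤ (S.biUnion Dc).card + (B.biUnion E).card :=
      Finset.card_union_le _ _
    have u3 : (S.biUnion Dc).card ≤ K * (2 * β * M.card) := by
      have h1 : (S.biUnion Dc).card ≤ S.card * (2 * β * M.card) :=
        Finset.card_biUnion_le_card_mul _ _ _ fun c hc => (hDS c hc).1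
      exact h1.trans (Nat.mul_le_mul_right _ hSK)
    have u4 : (B.biUnion E).card ≤ 2 * (K * R) ^ 2 * β * M.card := by
      have h1 : (B.biUnion E).card ≤ ∑ r ∈ B, (E r).card := Finset.card_biUnion_le
      have h2 : ∑ r ∈ B, (E r).card ≤
          ∑ r ∈ B, 2 * β * M.card * (S1.card * (S1.filter (fun c => c.2 = r)).card) := by
        refine Finset.sum_le_sum fun r hr => ((hET r hr).1).trans ?_
        have h3 : (S1.filter (fun c => c.2 = r)).card ≤ S1.card := Finset.card_filter_le _ _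
        have h4 : (S1.filter (fun c => c.2 = r)).card ^ 2 ≤
            S1.card * (S1.filter (fun c => c.2 = r)).card := by
          rw [sq]
          exact Nat.mul_le_mul_right _ h3
        calc 2 * (S1.filter (fun c => c.2 = r)).card ^ 2 * β * M.card
            = 2 * β * M.card * (S1.filter (fun c => c.2 = r)).card ^ 2 := by ring
          _ ≤ _ := Nat.mul_le_mul_left _ h4
      have h5 : ∑ r ∈ B, (S1.filter (fun c => c.2 = r)).card = S1.card :=
        (Finset.card_eq_sum_card_fiberwise fun c hc => (hS1p c hc).1).symm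
      rw [← Finset.mul_sum, ← Finset.mul_sum, h5] at h2
      calc (B.biUnion E).card ≤ 2 * β * M.card * (S1.card * S1.card) := h1.trans h2
        _ ≤ 2 * β * M.card * ((K * R) * (K * R)) :=
          Nat.mul_le_mul_left _ (Nat.mul_le_mul hS1c hS1c)
        _ = 2 * (K * R) ^ 2 * β * M.card := by ring
    calc X.card ≤ (X \ (S.biUnion Dc ∪ B.biUnion E)).card +
          (K * (2 * β * M.card) + 2 * (K * R) ^ 2 * β * M.card) := by omega
      _ = (X \ (S.biUnion Dc ∪ B.biUnion E)).card +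
          (2 * K + 2 * (K * R) ^ 2) * β * M.card := by ring

end H63P
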