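import Pool.Agent.Lib.H38P.Defs

/-! # H63P (clinic MP_33911d_co, module C): the finite facts in abstract form

Language of `H38P.Defs`: `cr x y z` = the edge `xy` crosses the ray `z`, `xx` = crossing edges. -/

open Finset H38P

namespace H63P

variable {α : Type} [LinearOrder α] [Fintype α]

/-- The arcs (pole, p, x) and (pole, q, x) cross. -/
def ad (cr : α → α → α → Prop) (x p q : α) : Prop := cr x q p ∨ cr x p q

/-- The edge `xy` crosses no ray of `O`. -/
def Lo (cr : α → α → α → Prop) (O : Finset α) (x y : α) : Prop := ∀ o ∈ O, ¬ cr x y o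

/-- `x` (below `p` and `q`) prefers `p` to `q`. -/
def pU (cr : α → α → α → Prop) (x p q : α) : Prop :=
  (p < q ∧ ¬ ad cr x p q) ∨ (q < p ∧ ad cr x p q)

/-- `p` (above `x` and `y`) prefers `x` to `y`. -/
def pD (cr : α → α → α → Prop) (p x y : α) : Prop :=
  (y < x ∧ ¬ ad cr p x y) ∨ (x < y ∧ ad cr p x y)

/-- Stable pairs of `O`-local edges between `{x, y}` and `{p, q}` do not cross. -/
structure Top (cr : α → α → α → Prop) (xx : α → α → α → α → Prop) (O : Finset α)
    (x y p q : α) : Prop where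
  iso : Lo cr O x p → Lo cr O y q → xx x p y q → ¬ (Lo cr O x q ∧ pU cr x q p ∧ pD cr q x y) →
    ¬ (Lo cr O y p ∧ pU cr y p q ∧ pD cr p y x) → False
  anti : Lo cr O x q → Lo cr O y p → xx x q y p → ¬ (Lo cr O x p ∧ pU cr x p q ∧ pD cr p x y) →
    ¬ (Lo cr O y q ∧ pU cr y q p ∧ pD cr q y x) → False

/-- `o'` comes before `o` in the order after the arc `[i, l]` (first the points above `l`, then
the points below `i`). -/
def Aft (i l o' o : α) : Prop := (l < o' ∧ o < i) ∨ (o' < o ∧ (l < o' ∨ o < i))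

/-- The finite facts for module C. -/
structure FC (cr : α → α → α → Prop) (xx : α → α → α → α → Prop) : Prop where
  symm : ∀ x y z, cr x y z → cr y x z
  ne : ∀ x y z, cr x y z → x ≠ y ∧ z ≠ x ∧ z ≠ y
  xsymm : ∀ x y z w, xx x y z w → xx z w x y
  xsymm1 : ∀ x y z w, xx x y z w → xx y x z w
  pUt : ∀ x p q r, x < p → x < q → x < r → pU cr x p q → pU cr x q r → pU cr x p r
  pDt : ∀ p x y z, x < p → y < p → z < p → pD cr p x y → pD cr p y z → pD cr p x z
  sep : ∀ (O : Finset α) (x y p q : α), x < y → y < p → p < q → (∀ o ∈ O, o < x ∨ q < o) →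
    Lo cr O x y → Lo cr O p q → ¬ Lo cr O x p → ¬ Lo cr O y q → ¬ xx x y p q
  merge : ∀ (O : Finset α) (x y p q r : α), x < y → y < p → p < q → (∀ o ∈ O, o < x ∨ q < o) →
    r ∈ O → cr x y r → cr p q r → Top cr xx O x y p q
  grow : ∀ (O : Finset α) (x y p q r : α), x < y → y < p → p < q → (∀ o ∈ O, o < x ∨ q < o) →
    (r < x ∨ q < r) → cr x y r → cr x p r → cr x q r → cr y p r → cr y q r → cr p q r →
    Top cr xx O x y p q
  n1 : ∀ i j k l o o' : α, i < j → j ≤ k → k < l → (o < i ∨ l < o) → (o' < i ∨ l < o') →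
    (j = k ∨ ∃ w, (w < i ∨ l < w) ∧ cr j k w) →
    cr i j o → ¬ cr k l o → cr k l o' → ¬ cr i j o' → Aft i l o' o

end H63P
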